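import Mathlib

/-!
Greedy maximum-independent-set colouring of interference graphs uses at most `12 χ` colours.
-/

open SimpleGraph Finset

namespace Pool.Agent.Results.MP_9b45c5_lc.Greedy

/-- A request in the bidirected tree on `T`: a directed path with at least one arc. -/
structure Req {V : Type} (T : SimpleGraph V) where
  s : V
  t : V
  p : T.Walk s t
  path : p.IsPath
  nn : ¬ p.Nil

/-- `r` interferes on `r'`: the path from `s_r` to `t_r'` has first arc the emission arc of `r`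
and last arc the reception arc of `r'`. -/
def Interferes {V : Type} {T : SimpleGraph V} (r r' : Req T) : Prop :=
  ∃ w : T.Walk r.s r'.t, w.IsPath ∧ ¬ w.Nil ∧ w.snd = r.p.snd ∧
    w.penultimate = r'.p.penultimate

/-- The interference graph of a family of requests. -/
def IG {V R : Type} {T : SimpleGraph V} (ρ : R → Req T) : SimpleGraph R :=
  SimpleGraph.fromRel fun i j => Interferes (ρ i) (ρ j)

/-- A run of greedy MIS colouring with `k` colours: `U i` is the set of uncoloured vertices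
before step `i` and `I i` is the colour class chosen at step `i`. -/
def IsRun {R : Type} [Fintype R] [DecidableEq R] (G : SimpleGraph R) (k : ℕ)
    (U I : ℕ → Finset R) : Prop :=
  U 0 = univ ∧ U k = ∅ ∧ ∀ i < k, (U i).Nonempty ∧ I i ⊆ U i ∧ G.IsIndepSet (I i) ∧
    (∀ J ⊆ U i, G.IsIndepSet J → #J ≤ #(I i)) ∧ U (i + 1) = U i \ I i

section Tree
variable {V : Type} {T : SimpleGraph V}

def H (T : SimpleGraph V) (p q : V) : Set V := {v | ∃ w : T.Walk q v, p ∉ w.support}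

lemma H_self {p q : V} (h : T.Adj p q) : q ∈ H T p q := ⟨.nil, by simpa using h.ne⟩

lemma H_not (p q : V) : p ∉ H T p q := fun ⟨w, h⟩ => h w.end_mem_support

lemma H_ext {p q u v : V} (h : u ∈ H T p q) (w : T.Walk u v) (hw : p ∉ w.support) :
    v ∈ H T p q := by
  obtain ⟨a, ha⟩ := h
  exact ⟨a.append w, by simp [Walk.mem_support_append_iff, ha, hw]⟩

lemma H_step {p q u v : V} (h : u ∈ H T p q) (a : T.Adj u v) (hv : v ≠ p) : v ∈ H T p q := by
  refine H_ext h a.toWalk ?_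
  have : u ≠ p := by rintro rfl; exact H_not _ _ h
  simp [Adj.toWalk, this.symm, hv.symm]

lemma H_or (hT : T.IsTree) {p q : V} (h : T.Adj p q) (v : V) : v ∈ H T p q ∨ v ∈ H T q p := by
  have := (reachable_iff_reflTransGen p v).1 (hT.1.preconnected p v)
  induction this with
  | refl => exact Or.inr (H_self h.symm)
  | @tail u v _ a ih =>
    by_cases h1 : v = p
    · rw [h1]; exact Or.inr (H_self h.symm)
    by_cases h2 : v = q
    · rw [h2]; exact Or.inl (H_self h)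
    exact ih.imp (fun c => H_step c a h1) (fun c => H_step c a h2)

lemma H_both (hT : T.IsTree) {p q v : V} (h : T.Adj p q) (h1 : v ∈ H T p q) (h2 : v ∈ H T q p) :
    False := by
  obtain ⟨a, ha⟩ := h1
  obtain ⟨b, hb⟩ := h2
  have := isBridge_iff_forall_walk_mem_edges.1 (isAcyclic_iff_forall_adj_isBridge.1 hT.2 h)
    (b.append a.reverse)
  rw [Walk.edges_append, Walk.edges_reverse, List.mem_append, List.mem_reverse] at this
  rcases this with c | c
  · exact hb (b.snd_mem_support_of_mem_edges c)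
  · exact ha (a.fst_mem_support_of_mem_edges c)

lemma H_compl (hT : T.IsTree) {p q : V} (h : T.Adj p q) : H T q p = (H T p q)ᶜ := by
  ext v
  exact ⟨fun a b => H_both hT h b a, fun a => (H_or hT h v).resolve_left a⟩

lemma H_sub {p q p' q' : V} (h1 : q' ∈ H T p q) (h2 : p ∉ H T p' q') :
    H T p' q' ⊆ H T p q := by
  classical
  rintro v ⟨w, hw⟩
  refine H_ext h1 w fun c => h2 ⟨w.takeUntil p c, fun d => hw ?_⟩
  exact w.support_takeUntil_subset_support c d

lemma H_nest1 (hT : T.IsTree) {p q p' q' : V} (h' : T.Adj p' q') (h1 : q' ∈ H T p q) :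
    H T p' q' ⊆ H T p q ∨ (H T p' q')ᶜ ⊆ H T p q := by
  by_cases h2 : p ∈ H T p' q'
  · right
    rw [← H_compl hT h']
    refine H_sub (H_step h1 h'.symm ?_) fun c => H_both hT h' h2 c
    rintro rfl; exact H_not _ _ h2
  · exact Or.inl (H_sub h1 h2)

/-- half-spaces missing the root -/
def Lm (T : SimpleGraph V) (o : V) (A : Set V) : Prop := o ∉ A ∧ ∃ p q, T.Adj p q ∧ A = H T p q

lemma Lm_lam (hT : T.IsTree) {o : V} {A B : Set V} (hA : Lm T o A) (hB : Lm T o B)
    (h : (A ∩ B).Nonempty) : A ⊆ B ∨ B ⊆ A := by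
  obtain ⟨oa, p, q, a, rfl⟩ := hA
  obtain ⟨ob, p', q', b, rfl⟩ := hB
  rcases H_or hT a q' with c | c
  · rcases H_nest1 hT b c with d | d
    · exact Or.inr d
    · exact absurd (d ob) oa
  · rcases H_nest1 hT b c with d | d <;> rw [H_compl hT a] at d
    · obtain ⟨v, h1, h2⟩ := h
      exact absurd h1 (d h2)
    · exact Or.inl (Set.compl_subset_compl.1 d)

lemma H_path {s t : V} (w : T.Walk s t) (hw : w.IsPath) (hn : ¬ w.Nil) : t ∈ H T s w.snd := by
  refine ⟨w.tail, ?_⟩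
  have := hw.support_nodup
  rw [← Walk.cons_support_tail hn, List.nodup_cons] at this
  exact this.1

lemma H_path' {s t : V} (w : T.Walk s t) (hw : w.IsPath) (hn : ¬ w.Nil) :
    s ∈ H T t w.penultimate := by
  have := H_path w.reverse hw.reverse (by simpa using hn)
  rwa [Walk.snd_reverse] at this

lemma H_uniq (hT : T.IsTree) {p q q' v : V} (a : T.Adj p q) (b : T.Adj p q')
    (h : v ∈ H T p q) (h' : v ∈ H T p q') : q' = q := by
  by_contra c
  obtain ⟨w, hw⟩ := h'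
  exact H_both hT a (H_ext h w.reverse (by simpa using hw)) (H_step (H_self a.symm) b c)

def RX (r : Req T) : Set V := H T r.s r.p.snd
def RY (r : Req T) : Set V := H T r.p.penultimate r.t

lemma int_iff (hT : T.IsTree) (r r' : Req T) : Interferes r r' ↔ RY r' ⊆ RX r := by
  have a := r.p.adj_snd r.nn
  have b := Walk.adj_penultimate r'.nn
  constructor
  · rintro ⟨w, hw, hn, e1, e2⟩
    refine H_sub (e1 ▸ H_path w hw hn) fun c => H_both hT b c (e2 ▸ H_path' w hw hn)
  · intro h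
    classical
    have h1 : r'.t ∈ H T r.s r.p.snd := h (H_self b)
    have h2 : r.s ∈ H T r'.t r'.p.penultimate :=
      (H_or hT b _).resolve_left fun c => H_not _ _ (h c)
    obtain ⟨w, hw⟩ := hT.1.exists_isPath r.s r'.t
    have hn : ¬ w.Nil := fun c => by
      rw [← c.eq] at h1
      exact H_not _ _ h1
    exact ⟨w, hw, hn, H_uniq hT a (w.adj_snd hn) h1 (H_path w hw hn),
      H_uniq hT b.symm (Walk.adj_penultimate hn).symm h2 (H_path' w hw hn)⟩

lemma RY_sub (hT : T.IsTree) (r : Req T) : RY r ⊆ RX r :=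
  (int_iff hT r r).1 ⟨r.p, r.path, r.nn, rfl, rfl⟩

end Tree

section Pot
variable {R : Type} [DecidableEq R]

open Classical in
/-- elements of `S` above some element of `Z` -/
noncomputable def up (le : R → R → Prop) (S Z : Finset R) : Finset R :=
  S.filter fun w => ∃ z ∈ Z, le z w

noncomputable def Phi (le : R → R → Prop) (S : Finset R) : ℕ :=
  (S.powerset.filter fun Z => #Z ≤ 4).sup fun Z => #(up le S Z)

lemma le_Phi (le : R → R → Prop) {S Z : Finset R} (h : Z ⊆ S) (h4 : #Z ≤ 4) :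
    #(up le S Z) ≤ Phi le S :=
  Finset.le_sup (f := fun Z => #(up le S Z)) (by simp [h, h4])

lemma Phi_ex (le : R → R → Prop) (S : Finset R) :
    ∃ Z ⊆ S, #Z ≤ 4 ∧ Phi le S = #(up le S Z) := by
  obtain ⟨Z, h, e⟩ := Finset.exists_mem_eq_sup (S.powerset.filter fun Z => #Z ≤ 4)
    ⟨∅, by simp⟩ fun Z => #(up le S Z)
  simp only [mem_filter, mem_powerset] at h
  exact ⟨Z, h.1, h.2, e⟩

lemma Phi_mono (le : R → R → Prop) {S S' : Finset R} (h : S' ⊆ S) : Phi le S' ≤ Phi le S := by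
  obtain ⟨Z, h1, h2, e⟩ := Phi_ex le S'
  rw [e]
  classical
  refine (card_le_card fun w hw => ?_).trans (le_Phi le (h1.trans h) h2)
  simp only [up, mem_filter] at hw ⊢
  exact ⟨h hw.1, hw.2⟩

/-- `G` restricted to `A` is the comparability graph of a forest preorder -/
structure Forest (G : SimpleGraph R) (A : R → Prop) (le : R → R → Prop) : Prop where
  refl : ∀ u, le u u
  trans : ∀ u v w, le u v → le v w → le u w
  adj : ∀ u v, A u → A v → (G.Adj u v ↔ u ≠ v ∧ (le u v ∨ le v u))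
  up : ∀ z u v, A z → A u → A v → le z u → le z v → le u v ∨ le v u

variable {G : SimpleGraph R} {A : R → Prop} {le : R → R → Prop}

lemma Phi_le (F : Forest G A le) {n : ℕ} (hn : G.Colorable n) {S : Finset R}
    (hS : ∀ u ∈ S, A u) : Phi le S ≤ 4 * n := by
  classical
  obtain ⟨Z, h1, h2, e⟩ := Phi_ex le S
  rw [e]
  have : up le S Z ⊆ Z.biUnion fun z => S.filter (le z) := by
    intro w hw
    simp only [up, mem_filter, mem_biUnion] at hw ⊢
    obtain ⟨a, z, b, c⟩ := hw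
    exact ⟨z, b, a, c⟩
  refine (card_le_card this).trans ((card_biUnion_le_card_mul _ _ n fun z hz => ?_).trans
    (Nat.mul_le_mul_right n h2))
  refine IsClique.card_le_of_colorable (fun u hu v hv huv => ?_) hn
  simp only [coe_filter, Set.mem_setOf_eq] at hu hv
  exact (F.adj u v (hS _ hu.1) (hS _ hv.1)).2
    ⟨huv, F.up z u v (hS _ (h1 hz)) (hS _ hu.1) (hS _ hv.1) hu.2 hv.2⟩

lemma Phi_lt (F : Forest G A le) {S I : Finset R} (hS : ∀ u ∈ S, A u) (hI : I ⊆ S)
    (hne : I.Nonempty) (hi : G.IsIndepSet I)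
    (hmax : ∀ J ⊆ S, G.IsIndepSet J → #J ≤ #I + 3) : Phi le (S \ I) < Phi le S := by
  classical
  obtain ⟨Z, h1, h2, e⟩ := Phi_ex le (S \ I)
  have hZ : Z ⊆ S := h1.trans sdiff_subset
  have key : ∃ a ∈ I, ∃ Z' ⊆ S, #Z' ≤ 4 ∧ (∀ z ∈ Z, ∃ z' ∈ Z', le z' z) ∧ ∃ z' ∈ Z', le z' a := by
    by_cases c1 : ∃ a ∈ I, ∃ z ∈ Z, le z a
    · obtain ⟨a, ha, c⟩ := c1
      exact ⟨a, ha, Z, hZ, h2, fun z hz => ⟨z, hz, F.refl z⟩, c⟩
    have er : ∀ a ∈ I, ∀ y ∈ Z, (∃ z' ∈ insert a (Z.erase y), le z' y) →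
        ∃ a ∈ I, ∃ Z' ⊆ S, #Z' ≤ 4 ∧ (∀ z ∈ Z, ∃ z' ∈ Z', le z' z) ∧ ∃ z' ∈ Z', le z' a := by
      intro a ha y hy c
      refine ⟨a, ha, insert a (Z.erase y), insert_subset (hI ha) ((erase_subset _ _).trans hZ),
        ?_, fun z hz => ?_, a, mem_insert_self _ _, F.refl a⟩
      · have := card_insert_le a (Z.erase y)
        have := card_erase_add_one hy
        omega
      · by_cases d : z = y
        · exact d ▸ c
        · exact ⟨z, mem_insert_of_mem (mem_erase.2 ⟨d, hz⟩), F.refl z⟩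
    by_cases c2 : ∃ a ∈ I, ∃ z ∈ Z, le a z
    · obtain ⟨a, ha, z, hz, c⟩ := c2
      exact er a ha z hz ⟨a, mem_insert_self _ _, c⟩
    obtain ⟨a, ha⟩ := hne
    by_cases c3 : ∃ z ∈ Z, ∃ y ∈ Z, z ≠ y ∧ le z y
    · obtain ⟨z, hz, y, hy, d, c⟩ := c3
      exact er a ha y hy ⟨z, mem_insert_of_mem (mem_erase.2 ⟨d, hz⟩), c⟩
    have hd : Disjoint I Z := disjoint_left.2 fun u hu hz => (mem_sdiff.1 (h1 hz)).2 hu
    have hind : G.IsIndepSet (I ∪ Z : Finset R) := by
      intro u hu v hv huv had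
      simp only [coe_union, Set.mem_union, mem_coe] at hu hv
      have hu' : A u := hS _ (hu.elim (fun c => hI c) fun c => hZ c)
      have hv' : A v := hS _ (hv.elim (fun c => hI c) fun c => hZ c)
      have d := ((F.adj u v hu' hv').1 had).2
      rcases hu with hu | hu <;> rcases hv with hv | hv
      · exact hi hu hv huv had
      · exact d.elim (fun c => c2 ⟨u, hu, v, hv, c⟩) fun c => c1 ⟨u, hu, v, hv, c⟩
      · exact d.elim (fun c => c1 ⟨v, hv, u, hu, c⟩) fun c => c2 ⟨v, hv, u, hu, c⟩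
      · exact d.elim (fun c => c3 ⟨u, hu, v, hv, huv, c⟩) fun c => c3 ⟨v, hv, u, hu, huv.symm, c⟩
    have := hmax _ (union_subset hI hZ) hind
    rw [card_union_of_disjoint hd] at this
    refine ⟨a, ha, insert a Z, insert_subset (hI ha) hZ, ?_,
      fun z hz => ⟨z, mem_insert_of_mem hz, F.refl z⟩, a, mem_insert_self _ _, F.refl a⟩
    have := card_insert_le a Z
    omega
  obtain ⟨a, ha, Z', s1, s2, s3, s4⟩ := key
  rw [e]
  refine lt_of_lt_of_le (card_lt_card ⟨fun w hw => ?_, fun c => ?_⟩) (le_Phi le s1 s2)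
  · simp only [up, mem_filter, mem_sdiff] at hw ⊢
    obtain ⟨⟨b, -⟩, z, hz, c⟩ := hw
    obtain ⟨z', hz', d⟩ := s3 z hz
    exact ⟨b, z', hz', F.trans _ _ _ d c⟩
  · have : a ∈ up le S Z' := by simp only [up, mem_filter]; exact ⟨hI ha, s4⟩
    have := c this
    simp only [up, mem_filter, mem_sdiff] at this
    exact this.1.2 ha

lemma small {n : ℕ} (hn : G.Colorable n) {S : Finset R}
    (h : ∀ J ⊆ S, G.IsIndepSet J → #J ≤ 4) : #S ≤ 4 * n := by
  obtain ⟨c⟩ := hn
  refine (card_le_mul_card_image (f := c) S 4 fun a _ => h _ (filter_subset _ _) ?_).trans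
    (Nat.mul_le_mul_left 4 ((card_le_univ _).trans (by simp)))
  intro u hu v hv _ had
  simp only [coe_filter, Set.mem_setOf_eq] at hu hv
  exact c.valid had (hu.2.trans hv.2.symm)

lemma half {B : R → Prop} [DecidablePred A] [DecidablePred B] (F : Forest G A le)
    {S I : Finset R} (hI : I ⊆ S) (hi : G.IsIndepSet I)
    (hmax : ∀ J ⊆ S, G.IsIndepSet J → #J ≤ #I) (h5 : 5 ≤ #I) (hB : #(I.filter B) ≤ 1)
    (hC : #(I.filter fun u => ¬ A u ∧ ¬ B u) ≤ 2) :
    Phi le ((S \ I).filter A) < Phi le (S.filter A) := by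
  have h1 : #I ≤ #(I.filter A) + 3 := by
    have : I ⊆ I.filter A ∪ (I.filter B ∪ I.filter fun u => ¬ A u ∧ ¬ B u) := by
      intro u hu
      simp only [mem_union, mem_filter]
      tauto
    have h2 := card_le_card this
    have h3 := card_union_le (I.filter A) (I.filter B ∪ I.filter fun u => ¬ A u ∧ ¬ B u)
    have h4 := card_union_le (I.filter B) (I.filter fun u => ¬ A u ∧ ¬ B u)
    omega
  have e : (S \ I).filter A = S.filter A \ I.filter A := by
    ext u; simp only [mem_filter, mem_sdiff]; tauto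
  rw [e]
  refine Phi_lt F (fun u hu => (mem_filter.1 hu).2) (filter_subset_filter _ hI)
    (card_pos.1 (by omega)) (hi.mono (coe_subset.2 (filter_subset _ _))) fun J hJ hj => ?_
  exact (hmax J (hJ.trans (filter_subset _ _)) hj).trans h1

lemma main [Fintype R] {B : R → Prop} {le' : R → R → Prop} [DecidablePred A] [DecidablePred B]
    (F : Forest G A le) (F' : Forest G B le')
    (hAB : ∀ I : Finset R, G.IsIndepSet I → #(I.filter A) ≤ 1 ∨ #(I.filter B) ≤ 1)
    (hC : ∀ I : Finset R, G.IsIndepSet I → #(I.filter fun u => ¬ A u ∧ ¬ B u) ≤ 2)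
    {n k : ℕ} (hn : G.Colorable n) {U I : ℕ → Finset R} (h : IsRun G k U I) : k ≤ 12 * n := by
  obtain ⟨-, -, h⟩ := h
  let Ψ : Finset R → ℕ := fun S => Phi le (S.filter A) + Phi le' (S.filter B) + min #S (4 * n)
  have step : ∀ i < k, Ψ (U (i + 1)) < Ψ (U i) := by
    intro i hi
    obtain ⟨⟨a, ha⟩, h2, h3, h4, h5⟩ := h i hi
    rw [h5]
    have m1 := Phi_mono le (filter_subset_filter A (sdiff_subset (s := U i) (t := I i)))
    have m2 := Phi_mono le' (filter_subset_filter B (sdiff_subset (s := U i) (t := I i)))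
    have m3 := card_sdiff_add_card_eq_card h2
    have m4 := h4 {a} (singleton_subset_iff.2 ha) (by simp [IsIndepSet])
    rw [card_singleton] at m4
    simp only [Ψ]
    by_cases c : 5 ≤ #(I i)
    · rcases hAB _ h3 with d | d
      · have := half F' h2 h3 h4 c d (by simpa only [and_comm] using hC _ h3)
        omega
      · have := half F h2 h3 h4 c d (hC _ h3)
        omega
    · have := small hn (S := U i) fun J hJ hj => (h4 J hJ hj).trans (by omega)
      omega
  have tot : ∀ i ≤ k, Ψ (U i) + i ≤ Ψ (U 0) := by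
    intro i hi
    induction i with
    | zero => simp
    | succ i ih => have := step i hi; have := ih (by omega); omega
  have h1 := tot k le_rfl
  have h2 := Phi_le F hn (S := (U 0).filter A) fun u hu => (mem_filter.1 hu).2
  have h3 := Phi_le F' hn (S := (U 0).filter B) fun u hu => (mem_filter.1 hu).2
  simp only [Ψ] at h1
  omega

end Pot

section Lam
variable {V : Type} {L : Set V → Prop}

lemma c4 (hL : ∀ A B, L A → L B → (A ∩ B).Nonempty → A ⊆ B ∨ B ⊆ A) {a a' b b' : Set V}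
    (ha : L a) (hb : L b) (h1 : (a ∩ b).Nonempty) (h2 : (a' ∩ b).Nonempty)
    (h3 : (a ∩ b').Nonempty) : (a ∩ a').Nonempty ∨ (b ∩ b').Nonempty := by
  obtain ⟨u, u1, u2⟩ := h2
  obtain ⟨v, v1, v2⟩ := h3
  exact (hL _ _ ha hb h1).elim (fun c => Or.inr ⟨v, c v1, v2⟩) fun c => Or.inl ⟨u, c u2, u1⟩

end Lam

lemma nsub {V : Type} {P Q : Set V} (h : ¬ P ⊆ Q) : (Qᶜ ∩ P).Nonempty := by
  obtain ⟨v, a, b⟩ := Set.not_subset.1 h
  exact ⟨v, b, a⟩

theorem result (V R : Type) [Fintype V] [Fintype R] [DecidableEq R] (T : SimpleGraph V)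
    (hT : T.IsTree) (ρ : R → Req T) (k : ℕ) (U I : ℕ → Finset R) (h : IsRun (IG ρ) k U I) :
    (k : ℕ∞) ≤ 12 * (IG ρ).chromaticNumber := by
  classical
  obtain ⟨o⟩ := hT.1.nonempty
  have hL : ∀ A B, Lm T o A → Lm T o B → (A ∩ B).Nonempty → A ⊆ B ∨ B ⊆ A :=
    fun A B a b c => Lm_lam hT a b c
  set X : R → Set V := fun i => RX (ρ i)
  set Y : R → Set V := fun i => RY (ρ i)
  have hadj : ∀ u v, (IG ρ).Adj u v ↔ u ≠ v ∧ (Y v ⊆ X u ∨ Y u ⊆ X v) := by
    intro u v
    rw [IG, fromRel_adj, int_iff hT, int_iff hT]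
  have sub : ∀ u, Y u ⊆ X u := fun u => RY_sub hT _
  have ax : ∀ u, T.Adj (ρ u).s (ρ u).p.snd := fun u => (ρ u).p.adj_snd (ρ u).nn
  have ay : ∀ u, T.Adj (ρ u).p.penultimate (ρ u).t := fun u => Walk.adj_penultimate (ρ u).nn
  have LX : ∀ u, o ∉ X u → Lm T o (X u) := fun u c => ⟨c, _, _, ax u, rfl⟩
  have LY : ∀ u, o ∉ Y u → Lm T o (Y u) := fun u c => ⟨c, _, _, ay u, rfl⟩
  have LX' : ∀ u, o ∈ X u → Lm T o (X u)ᶜ := fun u c =>
    ⟨fun d => d c, _, _, (ax u).symm, (H_compl hT (ax u)).symm⟩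
  have LY' : ∀ u, o ∈ Y u → Lm T o (Y u)ᶜ := fun u c =>
    ⟨fun d => d c, _, _, (ay u).symm, (H_compl hT (ay u)).symm⟩
  have tY : ∀ u, (ρ u).t ∈ Y u := fun u => H_self (ay u)
  have sX : ∀ u, (ρ u).s ∉ X u := fun u => H_not _ _
  have F : Forest (IG ρ) (fun u => o ∈ Y u) fun u v => (Y u)ᶜ ⊆ (Y v)ᶜ := by
    refine ⟨fun _ => subset_rfl, fun _ _ _ a b => a.trans b, fun u v a b => ?_,
      fun z u v _ a b c d => hL _ _ (LY' _ a) (LY' _ b)
        ⟨_, c fun e => sX z (sub z e), d fun e => sX z (sub z e)⟩⟩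
    rw [hadj]
    refine and_congr_right fun _ => ⟨fun c => hL _ _ (LY' _ a) (LY' _ b) ?_, fun c => ?_⟩
    · rcases c with c | c
      · exact ⟨_, fun e => sX u (sub u e), fun e => sX u (c e)⟩
      · exact ⟨_, fun e => sX v (c e), fun e => sX v (sub v e)⟩
    · exact c.imp (fun d => (Set.compl_subset_compl.1 d).trans (sub u))
        fun d => (Set.compl_subset_compl.1 d).trans (sub v)
  have F' : Forest (IG ρ) (fun u => o ∉ X u) fun u v => X u ⊆ X v := by
    refine ⟨fun _ => subset_rfl, fun _ _ _ a b => a.trans b, fun u v a b => ?_,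
      fun z u v _ a b c d => hL _ _ (LX _ a) (LX _ b)
        ⟨_, c (sub z (tY z)), d (sub z (tY z))⟩⟩
    rw [hadj]
    refine and_congr_right fun _ => ⟨fun c => hL _ _ (LX _ a) (LX _ b) ?_, fun c => ?_⟩
    · rcases c with c | c
      · exact ⟨_, c (tY v), sub v (tY v)⟩
      · exact ⟨_, sub u (tY u), c (tY u)⟩
    · exact c.symm.imp (fun d => (sub v).trans d) fun d => (sub u).trans d
  have nadj : ∀ J : Finset R, (IG ρ).IsIndepSet J → ∀ u ∈ J, ∀ v ∈ J, u ≠ v →
      ((X u)ᶜ ∩ Y v).Nonempty := fun J hJ u hu v hv c =>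
    nsub fun d => hJ hu hv c ((hadj u v).2 ⟨c, Or.inl d⟩)
  have := main F F' ?_ ?_ (colorable_chromaticNumber_of_fintype (IG ρ)) h
  · have e : (IG ρ).chromaticNumber ≠ ⊤ :=
      (colorable_chromaticNumber_of_fintype (IG ρ)).chromaticNumber_le.trans_lt
        (ENat.coe_lt_top _) |>.ne
    rw [← ENat.coe_toNat e]
    exact_mod_cast this
  · intro J hJ
    by_contra c
    rw [not_or, not_le, not_le, one_lt_card, one_lt_card] at c
    obtain ⟨⟨a, ha, a', ha', d⟩, b, hb, b', hb', d'⟩ := c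
    rw [mem_filter] at ha ha' hb hb'
    have x : ∀ u v, u ∈ J ∧ o ∈ Y u → v ∈ J ∧ o ∉ X v → ((Y u)ᶜ ∩ X v).Nonempty := by
      intro u v hu hv
      obtain ⟨w, w1, w2⟩ := nadj J hJ u hu.1 v hv.1 (by rintro rfl; exact hv.2 (sub _ hu.2))
      exact ⟨w, fun e => w1 (sub u e), sub v w2⟩
    rcases c4 hL (LY' _ ha.2) (LX _ hb.2) (x _ _ ha hb) (x _ _ ha' hb) (x _ _ ha hb') with e | e
    · exact hJ ha.1 ha'.1 d ((F.adj _ _ ha.2 ha'.2).2 ⟨d, hL _ _ (LY' _ ha.2) (LY' _ ha'.2) e⟩)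
    · exact hJ hb.1 hb'.1 d' ((F'.adj _ _ hb.2 hb'.2).2 ⟨d', hL _ _ (LX _ hb.2) (LX _ hb'.2) e⟩)
  · intro J hJ
    by_contra c
    rw [not_le, two_lt_card_iff] at c
    obtain ⟨a, b, c, ha, hb, hc, ab, ac, bc⟩ := c
    simp only [mem_filter, not_not] at ha hb hc
    have dj : ∀ u, ¬ ((X u)ᶜ ∩ Y u).Nonempty := fun u ⟨w, w1, w2⟩ => w1 (sub u w2)
    have n := nadj J hJ
    obtain ⟨p, p1, p2⟩ := n a ha.1 b hb.1 ab
    obtain ⟨q, q1, q2⟩ := n c hc.1 a ha.1 ac.symm
    rcases hL _ _ (LX' _ hc.2.2) (LY _ hb.2.1) (n c hc.1 b hb.1 bc.symm) with e | e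
    · -- `(X c)ᶜ ⊆ Y b`
      rcases hL _ _ (LY _ ha.2.1) (LY _ hb.2.1) ⟨q, q2, e q1⟩ with f | f
      · obtain ⟨w, w1, w2⟩ := n b hb.1 a ha.1 ab.symm
        exact dj b ⟨w, w1, f w2⟩
      · exact dj a ⟨p, p1, f p2⟩
    · rcases hL _ _ (LX' _ ha.2.2) (LX' _ hc.2.2) ⟨p, p1, e p2⟩ with f | f
      · obtain ⟨w, w1, w2⟩ := n a ha.1 c hc.1 ac
        exact dj c ⟨w, f w1, w2⟩
      · exact dj a ⟨q, f q1, q2⟩

end Pool.Agent.Results.MP_9b45c5_lc.Greedy
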